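import Pool.Agent.Helper14.BN.LamClose

/-!
# Project BR, block NECK: two frames, `Xi`

`exists_sign`; zero for mixed lists; for lists without elements of `A` compare
`sdp n (cone (bdp n) φ) C'` with `sdp n (cone (bdp n') φ) C'` (`sdp_flag`, `LA1` for `zs = []`, `a = n`,
`a' = n'` on a shorter segment, where `n'` is ahead; `φ` changes by `O(1)`), then with
`sdp n' (cone (bdp n') φ) C'` (`sd_cmp`).  Mirror image for lists of elements of `A`.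
-/

set_option autoImplicit false

namespace Pool.Agent.Helper14.BN

open Pool.Agent.Helper11.BC (dl)
open Pool.Agent.Helper11.BR
open Pool.Agent.Helper14.BC
open Pool.Agent.Helper14.BR (d_nonneg d_comm d_triangle d_self)

variable {G : Type} [Group G] [TopologicalSpace G] {Γ : R1 G}

/-- Cutting off the last part of the segment. -/
private theorem Xc_cut {N : ℕ} (S : Sys Γ N) {X X' : List (GP G)} (hX : X.length = N)
    (hX' : X'.length = N) (s m t : G) {c D : ℝ}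
    (h : |S.F X s m - S.F X' s m| ≤ c) (hd : Γ.d m t ≤ D) :
    |S.F X s t - S.F X' s t| ≤ c + 2 * (S.C * D) := by
  have hC : 0 ≤ S.C := zero_le_one.trans S.one_le_C
  have h1 := S.F_add X s m t hX
  have h2 := S.F_add X' s m t hX'
  have h3 := S.F_growth X m t hX
  have h4 := S.F_growth X' m t hX'
  have h5 : S.C * Γ.d m t ≤ S.C * D := mul_le_mul_of_nonneg_left hd hC
  rw [abs_le] at h h3 h4 ⊢
  constructor <;> linarith

/-- Cutting off the first part of the segment. -/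
private theorem Xc_cut' {N : ℕ} (S : Sys Γ N) {X X' : List (GP G)} (hX : X.length = N)
    (hX' : X'.length = N) (s m t : G) {c D : ℝ}
    (h : |S.F X m t - S.F X' m t| ≤ c) (hd : Γ.d s m ≤ D) :
    |S.F X s t - S.F X' s t| ≤ c + 2 * (S.C * D) := by
  have hC : 0 ≤ S.C := zero_le_one.trans S.one_le_C
  have h1 := S.F_add X s m t hX
  have h2 := S.F_add X' s m t hX'
  have h3 := S.F_growth X s m hX
  have h4 := S.F_growth X' s m hX'
  have h5 : S.C * Γ.d s m ≤ S.C * D := mul_le_mul_of_nonneg_left hd hC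
  rw [abs_le] at h h3 h4 ⊢
  constructor <;> linarith

private theorem Xc_generic {E Q : List G} (h : Γ.Generic Q) (hE : E.Sublist Q) : Γ.Generic E :=
  List.Pairwise.sublist hE h

/-- the comparison of the roots for all sublists -/
private theorem Xc_rt (hG : NeckGeo Γ) {n n' : G} {ε : ℝ} (hε : 0 ≤ ε) {Q E : List G}
    (hE : E.Sublist Q)
    (h : ∀ E : List G, E.Sublist Q → 2 ≤ E.length →
      Γ.d (Γ.root n E) (Γ.root n' E) ≤ ε) : LAR Γ ε (rt Γ n E) (rt Γ n' E) := by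
  unfold rt
  by_cases h1 : E.length ≤ 1
  · rw [if_pos h1, if_pos h1]
    exact LAR.refl hG hε _
  · rw [if_neg h1, if_neg h1]
    exact LAR.int (h E hE (by omega))

/-- comparison with the same cone point -/
private theorem Xc_two (hG : NeckGeo Γ) {N : ℕ} (S : Sys Γ N) {K : ℝ} (hK : 0 ≤ K) {m m' : G}
    {s t : G} {L : ℝ} (hL : Γ.d s t = L) {Q : List G}
    (h : ∀ E : List G, E.Sublist Q → 2 ≤ E.length →
      Γ.d (Γ.root m E) (Γ.root m' E) ≤ K * Real.exp (-L)) (Y Z : List (GP G))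
    (hl : Y.length + (Q.length + Z.length) = N) :
    |sd (rt Γ m) (fun l => S.F (Y ++ (l ++ Z)) s t) Q -
      sd (rt Γ m') (fun l => S.F (Y ++ (l ++ Z)) s t) Q| ≤
        (Q.length.factorial : ℝ) * (Q.length * (S.C * K)) := by
  have hC : 0 ≤ S.C := zero_le_one.trans S.one_le_C
  have hε : 0 ≤ K * Real.exp (-L) := by positivity
  refine sd_cmp (LAR Γ (K * Real.exp (-L))) (rt Γ m) (rt Γ m') Q
    (fun E hE _ => Xc_rt hG hε hE h) _ _ _ fun l l' hll hR => ?_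
  refine (F_cmp S hε s t hR Y Z ?_).trans ?_
  · simp only [List.length_append, hll]
    exact hl
  · rw [hll, hL]
    have h1 : S.C * L * (K * Real.exp (-L)) ≤ S.C * K := by
      have h2 := mul_le_mul_of_nonneg_left (mul_exp_le' L) (mul_nonneg hC hK)
      calc S.C * L * (K * Real.exp (-L)) = S.C * K * (L * Real.exp (-L)) := by ring
        _ ≤ S.C * K * 1 := h2
        _ = S.C * K := mul_one _
    exact mul_le_mul_of_nonneg_left h1 (Nat.cast_nonneg _)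

/-- all elements behind -/
private theorem Xc_behind (hG : NeckGeo Γ) {N : ℕ} (S : Sys Γ N) (C₀ : ℝ) :
    ∃ K₀ L₀ : ℝ, 0 ≤ K₀ ∧
    ∀ (n n' : G) (τ₁ τ₂ τ₁' τ₂' : ℝ) (Q : List G), L₀ ≤ τ₂ - τ₁ → τ₁ ≤ τ₂ → τ₁' ≤ τ₂' →
      Γ.d (Γ.ln n τ₁) (Γ.ln n' τ₁') ≤ C₀ → Γ.d (Γ.ln n τ₂) (Γ.ln n' τ₂') ≤ C₀ →
      Γ.Generic Q → Q ≠ [] → Q.length + 1 = N →
      (∀ g ∈ Q, Γ.Behind n τ₁ g ∧ Γ.Behind n' τ₁' g) →
      |sdp Γ n (cone (GP.bdp n) fun X => S.F X (Γ.ln n τ₁) (Γ.ln n τ₂)) Q -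
        sdp Γ n' (cone (GP.bdp n') fun X => S.F X (Γ.ln n τ₁) (Γ.ln n τ₂)) Q| ≤ K₀ := by
  obtain ⟨K₁, hK₁, hLA⟩ := LA1 hG S
  obtain ⟨K₂, L₂, hK₂, hL₂, hR⟩ := root_close2 hG C₀
  obtain ⟨L₃, hcl⟩ := hG.close_ahead C₀
  have hC : 0 ≤ S.C := zero_le_one.trans S.one_le_C
  have hL₃ := abs_nonneg L₃
  have hL₃' := le_abs_self L₃
  refine ⟨(N.factorial : ℝ) * (K₁ + 2 * (S.C * |L₃|)) +
    (N.factorial : ℝ) * (N * (S.C * K₂)), L₂ + |L₃|, by positivity, ?_⟩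
  intro n n' τ₁ τ₂ τ₁' τ₂' Q hL h12 h12' hd1 hd2 hQ hQ0 hQl hQB
  have hah : Γ.Ahead n (τ₂ - |L₃|) n' := hG.ahead_mono n _ _ n' (by linarith)
    (hcl n n' τ₁ τ₂ τ₁' τ₂' (by linarith) h12' hd1 hd2)
  have hdm : Γ.d (Γ.ln n (τ₂ - |L₃|)) (Γ.ln n τ₂) ≤ |L₃| := by
    rw [hG.ln_dist, abs_le]
    constructor <;> linarith
  have hfac : (Q.length.factorial : ℝ) ≤ (N.factorial : ℝ) := by
    exact_mod_cast Nat.factorial_le (by omega)
  have hlen : ((Q.length : ℕ) : ℝ) ≤ N := by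
    exact_mod_cast (by omega : Q.length ≤ N)
  have e1 : |sdp Γ n (cone (GP.bdp n) fun X => S.F X (Γ.ln n τ₁) (Γ.ln n τ₂)) Q -
      sdp Γ n (cone (GP.bdp n') fun X => S.F X (Γ.ln n τ₁) (Γ.ln n τ₂)) Q| ≤
      (Q.length.factorial : ℝ) * (K₁ + 2 * (S.C * |L₃|)) := by
    refine sdp_flag n _ _ Q hQ0 _ fun Ds b hb hDs hDl => ?_
    have hlenX : ∀ x : GP G,
        (x :: (Ds.map (fun E => GP.int (Γ.root n E)) ++ [GP.bdp b])).length = N := by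
      intro x
      simp only [List.length_cons, List.length_append, List.length_map, List.length_nil]
      omega
    show |S.F (GP.bdp n :: (Ds.map (fun E => GP.int (Γ.root n E)) ++ [GP.bdp b])) (Γ.ln n τ₁)
      (Γ.ln n τ₂) - S.F (GP.bdp n' :: (Ds.map (fun E => GP.int (Γ.root n E)) ++ [GP.bdp b]))
      (Γ.ln n τ₁) (Γ.ln n τ₂)| ≤ _
    refine Xc_cut S (hlenX _) (hlenX _) _ (Γ.ln n (τ₂ - |L₃|)) _ ?_ hdm
    exact hLA n τ₁ (τ₂ - |L₃|) [] Ds n n' b (by linarith)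
      (by simp only [List.length_nil]; omega) (hG.ahead_self n _) hah (hQB b hb).1
      (fun z hz => absurd hz (by simp)) fun E hE =>
        ⟨fun g hg => (hQB g ((hDs E hE).1.subset hg)).1, Xc_generic hQ (hDs E hE).1,
          (hDs E hE).2.2, (hDs E hE).2.1⟩
  have e2 : |sdp Γ n (cone (GP.bdp n') fun X => S.F X (Γ.ln n τ₁) (Γ.ln n τ₂)) Q -
      sdp Γ n' (cone (GP.bdp n') fun X => S.F X (Γ.ln n τ₁) (Γ.ln n τ₂)) Q| ≤
      (Q.length.factorial : ℝ) * (Q.length * (S.C * K₂)) := by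
    have h1 := Xc_two hG S hK₂ (m := n) (m' := n') (s := Γ.ln n τ₁) (t := Γ.ln n τ₂)
      (L := τ₂ - τ₁) (by rw [hG.ln_dist, abs_sub_comm, abs_of_nonneg (by linarith)])
      (Q := Q) (fun E hE hE2 => hR n n' τ₁ τ₂ τ₁' τ₂' E (by linarith) h12' hd1 hd2
        (Xc_generic hQ hE) hE2 fun g hg => hQB g (hE.subset hg)) [GP.bdp n'] [] (by simp; omega)
    have h2 : (fun l => S.F ([GP.bdp n'] ++ (l ++ [])) (Γ.ln n τ₁) (Γ.ln n τ₂)) =
        cone (GP.bdp n') fun X => S.F X (Γ.ln n τ₁) (Γ.ln n τ₂) := by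
      funext l
      rw [List.append_nil, List.singleton_append]
      rfl
    rw [h2] at h1
    exact h1
  have e3 := abs_sub_le (sdp Γ n (cone (GP.bdp n) fun X => S.F X (Γ.ln n τ₁) (Γ.ln n τ₂)) Q)
    (sdp Γ n (cone (GP.bdp n') fun X => S.F X (Γ.ln n τ₁) (Γ.ln n τ₂)) Q)
    (sdp Γ n' (cone (GP.bdp n') fun X => S.F X (Γ.ln n τ₁) (Γ.ln n τ₂)) Q)
  have e4 : (Q.length.factorial : ℝ) * (K₁ + 2 * (S.C * |L₃|)) ≤
      (N.factorial : ℝ) * (K₁ + 2 * (S.C * |L₃|)) :=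
    mul_le_mul_of_nonneg_right hfac (by positivity)
  have e5 : (Q.length.factorial : ℝ) * (Q.length * (S.C * K₂)) ≤
      (N.factorial : ℝ) * (N * (S.C * K₂)) := by
    refine mul_le_mul hfac ?_ (by positivity) (by positivity)
    exact mul_le_mul_of_nonneg_right hlen (mul_nonneg hC hK₂)
  linarith

/-- all elements ahead -/
private theorem Xc_ahead (hG : NeckGeo Γ) {N : ℕ} (S : Sys Γ N) (C₀ : ℝ) :
    ∃ K₀ L₀ : ℝ, 0 ≤ K₀ ∧
    ∀ (n n' : G) (τ₁ τ₂ τ₁' τ₂' : ℝ) (Q : List G), L₀ ≤ τ₂ - τ₁ → τ₁ ≤ τ₂ → τ₁' ≤ τ₂' →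
      Γ.d (Γ.ln n τ₁) (Γ.ln n' τ₁') ≤ C₀ → Γ.d (Γ.ln n τ₂) (Γ.ln n' τ₂') ≤ C₀ →
      Γ.Generic Q → Q ≠ [] → Q.length + 1 = N →
      (∀ g ∈ Q, Γ.Ahead n τ₂ g ∧ Γ.Ahead n' τ₂' g) →
      |sdm Γ n (fun l => S.F (l ++ [GP.bdp (opp Γ n)]) (Γ.ln n τ₁) (Γ.ln n τ₂)) Q -
        sdm Γ n' (fun l => S.F (l ++ [GP.bdp (opp Γ n')]) (Γ.ln n τ₁) (Γ.ln n τ₂)) Q| ≤ K₀ := by
  obtain ⟨K₁, hK₁, hLA⟩ := LA2 hG S
  obtain ⟨K₂, L₂, hK₂, hL₂, hR⟩ := root_close3 hG C₀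
  obtain ⟨L₃, hcl⟩ := hG.close_behind C₀
  have hC : 0 ≤ S.C := zero_le_one.trans S.one_le_C
  have hL₃ := abs_nonneg L₃
  have hL₃' := le_abs_self L₃
  refine ⟨(N.factorial : ℝ) * (K₁ + 2 * (S.C * |L₃|)) +
    (N.factorial : ℝ) * (N * (S.C * K₂)), L₂ + |L₃|, by positivity, ?_⟩
  intro n n' τ₁ τ₂ τ₁' τ₂' Q hL h12 h12' hd1 hd2 hQ hQ0 hQl hQA
  have hbe : Γ.Behind n (τ₁ + |L₃|) (opp Γ n') := hG.behind_mono n _ _ _ (by linarith)
    (hcl n n' τ₁ τ₂ τ₁' τ₂' (by linarith) h12' hd1 hd2)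
  have hdm : Γ.d (Γ.ln n τ₁) (Γ.ln n (τ₁ + |L₃|)) ≤ |L₃| := by
    rw [hG.ln_dist, abs_le]
    constructor <;> linarith
  have hfac : (Q.length.factorial : ℝ) ≤ (N.factorial : ℝ) := by
    exact_mod_cast Nat.factorial_le (by omega)
  have hlen : ((Q.length : ℕ) : ℝ) ≤ N := by
    exact_mod_cast (by omega : Q.length ≤ N)
  have e1 : |sdm Γ n (fun l => S.F (l ++ [GP.bdp (opp Γ n)]) (Γ.ln n τ₁) (Γ.ln n τ₂)) Q -
      sdm Γ n (fun l => S.F (l ++ [GP.bdp (opp Γ n')]) (Γ.ln n τ₁) (Γ.ln n τ₂)) Q| ≤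
      (Q.length.factorial : ℝ) * (K₁ + 2 * (S.C * |L₃|)) := by
    refine sdp_flag (opp Γ n) _ _ Q hQ0 _ fun Ds a ha hDs hDl => ?_
    have hlenX : ∀ x : GP G,
        (Ds.map (fun E => GP.int (Γ.root (opp Γ n) E)) ++ [GP.bdp a, x]).length = N := by
      intro x
      simp only [List.length_cons, List.length_append, List.length_map, List.length_nil]
      omega
    have hass : ∀ x : GP G,
        (Ds.map (fun E => GP.int (Γ.root (opp Γ n) E)) ++ [GP.bdp a]) ++ [x] =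
        Ds.map (fun E => GP.int (Γ.root (opp Γ n) E)) ++ [GP.bdp a, x] := by
      intro x
      rw [List.append_assoc]
      rfl
    show |S.F ((Ds.map (fun E => GP.int (Γ.root (opp Γ n) E)) ++ [GP.bdp a]) ++
        [GP.bdp (opp Γ n)]) (Γ.ln n τ₁) (Γ.ln n τ₂) -
      S.F ((Ds.map (fun E => GP.int (Γ.root (opp Γ n) E)) ++ [GP.bdp a]) ++ [GP.bdp (opp Γ n')])
      (Γ.ln n τ₁) (Γ.ln n τ₂)| ≤ _
    rw [hass, hass]
    refine Xc_cut' S (hlenX _) (hlenX _) _ (Γ.ln n (τ₁ + |L₃|)) _ ?_ hdm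
    exact hLA n (τ₁ + |L₃|) τ₂ [] Ds a (opp Γ n) (opp Γ n') (by linarith)
      (by simp only [List.length_nil]; omega) (hQA a ha).1 (hG.behind_opp n _) hbe
      (fun z hz => absurd hz (by simp)) fun E hE =>
        ⟨fun g hg => (hQA g ((hDs E hE).1.subset hg)).1, Xc_generic hQ (hDs E hE).1,
          (hDs E hE).2.2, (hDs E hE).2.1⟩
  have e2 : |sdm Γ n (fun l => S.F (l ++ [GP.bdp (opp Γ n')]) (Γ.ln n τ₁) (Γ.ln n τ₂)) Q -
      sdm Γ n' (fun l => S.F (l ++ [GP.bdp (opp Γ n')]) (Γ.ln n τ₁) (Γ.ln n τ₂)) Q| ≤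
      (Q.length.factorial : ℝ) * (Q.length * (S.C * K₂)) := by
    have h1 := Xc_two hG S hK₂ (m := opp Γ n) (m' := opp Γ n') (s := Γ.ln n τ₁) (t := Γ.ln n τ₂)
      (L := τ₂ - τ₁) (by rw [hG.ln_dist, abs_sub_comm, abs_of_nonneg (by linarith)])
      (Q := Q) (fun E hE hE2 => hR n n' τ₁ τ₂ τ₁' τ₂' E (by linarith) h12' hd1 hd2
        (Xc_generic hQ hE) hE2 fun g hg => hQA g (hE.subset hg)) [] [GP.bdp (opp Γ n')]
      (by simp; omega)
    exact h1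
  have e3 := abs_sub_le (sdm Γ n (fun l => S.F (l ++ [GP.bdp (opp Γ n)]) (Γ.ln n τ₁) (Γ.ln n τ₂)) Q)
    (sdm Γ n (fun l => S.F (l ++ [GP.bdp (opp Γ n')]) (Γ.ln n τ₁) (Γ.ln n τ₂)) Q)
    (sdm Γ n' (fun l => S.F (l ++ [GP.bdp (opp Γ n')]) (Γ.ln n τ₁) (Γ.ln n τ₂)) Q)
  have e4 : (Q.length.factorial : ℝ) * (K₁ + 2 * (S.C * |L₃|)) ≤
      (N.factorial : ℝ) * (K₁ + 2 * (S.C * |L₃|)) :=
    mul_le_mul_of_nonneg_right hfac (by positivity)
  have e5 : (Q.length.factorial : ℝ) * (Q.length * (S.C * K₂)) ≤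
      (N.factorial : ℝ) * (N * (S.C * K₂)) := by
    refine mul_le_mul hfac ?_ (by positivity) (by positivity)
    exact mul_le_mul_of_nonneg_right hlen (mul_nonneg hC hK₂)
  linarith

private theorem Xc_sign (A : Finset G) (C' : List G) : ∃ ε : ℝ, |ε| = 1 ∧ ∃ P Q : List G,
    (P.Sublist C' ∧ ∀ g ∈ P, g ∈ A) ∧ (Q.Sublist C' ∧ ∀ g ∈ Q, g ∉ A) ∧
    (P = [] → Q = C') ∧ (Q = [] → P = C') ∧
    ∀ (n : G) (φ : Fn G), Xi Γ n A φ C' = ε * Xi2 Γ n φ P Q := by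
  classical
  obtain ⟨ε, h1, h2⟩ := exists_sign (M := ℝ) (fun g => g ∈ A) C'
  refine ⟨ε, h1, C'.filter (fun c => c ∈ A), C'.filter (fun c => ¬ c ∈ A),
    ⟨List.filter_sublist, fun g hg => by simpa using (List.mem_filter.1 hg).2⟩,
    ⟨List.filter_sublist, fun g hg => by simpa using (List.mem_filter.1 hg).2⟩,
    fun h => ?_, fun h => ?_, fun n φ => ?_⟩
  · rw [List.filter_eq_nil_iff] at h
    rw [List.filter_eq_self]
    intro g hg
    simpa using h g hg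
  · rw [List.filter_eq_nil_iff] at h
    rw [List.filter_eq_self]
    intro g hg
    simpa using h g hg
  · unfold Xi
    have h3 := h2 (Xi2 Γ n φ)
    rw [smul_eq_mul] at h3
    convert h3 using 1

theorem Xi_close (hG : NeckGeo Γ) {N : ℕ} (hN : 3 ≤ N) (S : Sys Γ N) : ∀ C₀ : ℝ, ∃ K₀ : ℝ,
    ∀ (n n' : G) (τ₁ τ₂ τ₁' τ₂' : ℝ) (A : Finset G) (C' : List G),
    τ₁ ≤ τ₂ → τ₁' ≤ τ₂' → Γ.Generic C' → C'.length + 1 = N →
    (∀ g ∈ C', g ∈ A → Γ.Ahead n τ₂ g ∧ Γ.Ahead n' τ₂' g) →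
    (∀ g ∈ C', g ∉ A → Γ.Behind n τ₁ g ∧ Γ.Behind n' τ₁' g) →
    Γ.d (Γ.ln n τ₁) (Γ.ln n' τ₁') ≤ C₀ → Γ.d (Γ.ln n τ₂) (Γ.ln n' τ₂') ≤ C₀ →
    |Xi Γ n A (fun X => S.F X (Γ.ln n τ₁) (Γ.ln n τ₂)) C' -
      Xi Γ n' A (fun X => S.F X (Γ.ln n τ₁) (Γ.ln n τ₂)) C'| ≤ K₀ := by
  intro C₀
  obtain ⟨K₁, L₁, hK₁, hB⟩ := Xc_behind hG S C₀
  obtain ⟨K₂, L₂, hK₂, hA⟩ := Xc_ahead hG S C₀
  have hC : 0 ≤ S.C := zero_le_one.trans S.one_le_C
  obtain ⟨L, hL⟩ : ∃ L, L = max (max L₁ L₂) 0 := ⟨_, rfl⟩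
  have hL0 : 0 ≤ L := hL ▸ le_max_right _ _
  have hL1 : L₁ ≤ L := hL ▸ (le_max_left _ _).trans (le_max_left _ _)
  have hL2 : L₂ ≤ L := hL ▸ (le_max_right _ _).trans (le_max_left _ _)
  refine ⟨K₁ + K₂ + 2 * ((N.factorial : ℝ) * (S.C * L)), ?_⟩
  intro n n' τ₁ τ₂ τ₁' τ₂' A C' h12 h12' hGe hlen hAh hBe hd1 hd2
  have hfac : (C'.length.factorial : ℝ) ≤ (N.factorial : ℝ) := by
    exact_mod_cast Nat.factorial_le (by omega)
  have hrest : 0 ≤ 2 * ((N.factorial : ℝ) * (S.C * L)) := by positivity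
  rcases le_or_gt L (τ₂ - τ₁) with hlong | hshort
  · obtain ⟨ε, hε, P, Q, ⟨hP, hPA⟩, ⟨hQ, hQA⟩, hPn, hQn, hXi⟩ := Xc_sign A C'
    rw [hXi, hXi, ← mul_sub, abs_mul, hε, one_mul]
    by_cases hP0 : P = []
    · have hQC := hPn hP0
      have hC'0 : C' ≠ [] := by
        rintro rfl
        simp at hlen
        omega
      unfold Xi2
      rw [if_pos hP0, if_pos hP0, hQC]
      have h1 := hB n n' τ₁ τ₂ τ₁' τ₂' C' (hL1.trans hlong) h12 h12' hd1 hd2 hGe hC'0 hlen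
        fun g hg => hBe g hg (hQA g (hQC ▸ hg))
      linarith
    · by_cases hQ0 : Q = []
      · have hPC := hQn hQ0
        have hC'0 : C' ≠ [] := hPC ▸ hP0
        unfold Xi2
        rw [if_neg hP0, if_neg hP0, if_pos hQ0, if_pos hQ0, hPC, ← mul_sub, abs_mul, abs_pow,
          abs_neg, abs_one, one_pow, one_mul]
        have h1 := hA n n' τ₁ τ₂ τ₁' τ₂' C' (hL2.trans hlong) h12 h12' hd1 hd2 hGe hC'0 hlen
          fun g hg => hAh g hg (hPA g (hPC ▸ hg))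
        linarith
      · unfold Xi2
        rw [if_neg hP0, if_neg hP0, if_neg hQ0, if_neg hQ0, sub_self, abs_zero]
        positivity
  · have hds : Γ.d (Γ.ln n τ₁) (Γ.ln n τ₂) ≤ L := by
      rw [hG.ln_dist, abs_sub_comm, abs_of_nonneg (by linarith)]
      exact hshort.le
    have hb : ∀ m : G, |Xi Γ m A (fun X => S.F X (Γ.ln n τ₁) (Γ.ln n τ₂)) C'| ≤
        (N.factorial : ℝ) * (S.C * L) := by
      intro m
      refine (Xi_abs (c := S.C * L) (by positivity) fun l hl => ?_).trans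
        (mul_le_mul_of_nonneg_right hfac (by positivity))
      exact (S.F_growth _ _ _ (hl.trans hlen)).trans (mul_le_mul_of_nonneg_left hds hC)
    have h1 := hb n
    have h2 := hb n'
    rw [abs_le] at h1 h2 ⊢
    constructor <;> linarith

end Pool.Agent.Helper14.BN
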