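import Pool.Agent.Helper14.BN.Sd

/-!
# Project BR, block NECK: equivariance

Induction on the length, `(D.map f).eraseIdx i = (D.eraseIdx i).map f` (`dl_map`), and for `Sh`
induction on the list.
-/

set_option autoImplicit false

namespace Pool.Agent.Helper14.BN

open Pool.Agent.Helper11.BC (dl)
open Pool.Agent.Helper11.BR
open Pool.Agent.Helper14.BC
open Pool.Agent.Helper14.BR (d_nonneg d_comm d_triangle d_self)

variable {G : Type} [Group G] [TopologicalSpace G] {Γ : R1 G}

private theorem Inv_headD (h : G) {A : List G} (hA : A ≠ []) :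
    (A.map (h * ·)).headD 1 = h * A.headD 1 := by
  cases A with
  | nil => exact absurd rfl hA
  | cons a A => rfl

private theorem Inv_sd (ρ ρ' : List G → GP G) (h : G)
    (hρ : ∀ D : List G, D ≠ [] → ρ' (D.map (h * ·)) = h • ρ D) (φ : Fn G) (D : List G) :
    sd ρ' φ (D.map (h * ·)) = sd ρ (fun l => φ (l.map (h • ·))) D := by
  obtain ⟨n, hn⟩ : ∃ n, D.length = n := ⟨_, rfl⟩
  induction n generalizing D φ with
  | zero =>
    rw [List.length_eq_zero_iff] at hn
    subst hn
    rfl
  | succ n ih =>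
    have hD : D ≠ [] := by
      rintro rfl
      simp at hn
    have hD' : D.map (h * ·) ≠ [] := by
      intro h0
      exact hD (List.map_eq_nil_iff.1 h0)
    rw [sd_ne hD', sd_ne hD, dl_map]
    refine dl_congr fun i hi => ?_
    rw [ih _ _ (by have := length_face hi; omega)]
    congr 1
    funext l
    simp only [cone, hρ D hD, List.map_cons]

private theorem Inv_opp (h n : G) : opp Γ (h * n) = h * opp Γ n := mul_assoc _ _ _

private theorem Inv_d2 {T T' M : Type*} [AddCommGroup M] [Module ℝ M] (f : T → T')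
    (Φ : List T' → List T' → M) (A B : List T) :
    d2 Φ (A.map f) (B.map f) = d2 (fun A' B' => Φ (A'.map f) (B'.map f)) A B := by
  unfold d2
  rw [dl_map, dl_map, List.length_map]

private theorem Inv_Sh {T T' M : Type*} [AddCommGroup M] [Module ℝ M] (f : T → T')
    (P : T → Prop) [DecidablePred P] (P' : T' → Prop) [DecidablePred P'] (C : List T)
    (hP : ∀ g ∈ C, (P' (f g) ↔ P g)) (Φ : List T' → List T' → M) :
    Sh P' (C.map f) Φ = Sh P C (fun A B => Φ (A.map f) (B.map f)) := by
  induction C generalizing Φ with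
  | nil => rfl
  | cons c C ih =>
    have ih' := fun Φ => ih (fun g hg => hP g (List.mem_cons_of_mem _ hg)) Φ
    have hc := hP c List.mem_cons_self
    rw [List.map_cons]
    unfold Sh
    by_cases h1 : P c
    · rw [if_pos h1, if_pos (hc.2 h1), ih']
      rfl
    · rw [if_neg h1, if_neg (fun h2 => h1 (hc.1 h2)), ih']
      congr 1
      funext A B
      rw [List.length_map]
      rfl

variable (hG : NeckGeo Γ)
include hG

theorem rt_mul (h n : G) {D : List G} (hD : D ≠ []) : rt Γ (h * n) (D.map (h * ·)) = h • rt Γ n D := by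
  unfold rt
  rw [List.length_map]
  split_ifs
  · rw [Inv_headD h hD, smul_bdp]
  · rw [hG.root_mul, smul_int]

theorem sdp_mul (h n : G) (φ : Fn G) (D : List G) :
    sdp Γ (h * n) φ (D.map (h * ·)) = sdp Γ n (fun l => φ (l.map (h • ·))) D :=
  Inv_sd (rt Γ n) (rt Γ (h * n)) h (fun _ hD => rt_mul hG h n hD) φ D

theorem sdm_mul (h n : G) (φ : Fn G) (D : List G) :
    sdm Γ (h * n) φ (D.map (h * ·)) = sdm Γ n (fun l => φ (l.map (h • ·))) D := by
  unfold sdm
  rw [Inv_opp]
  exact Inv_sd (rt Γ (opp Γ n)) (rt Γ (h * opp Γ n)) h (fun _ hD => rt_mul hG h (opp Γ n) hD) φ D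

theorem J2_mul (h n : G) (φ : Fn G) (A B : List G) :
    J2 Γ (h * n) φ (A.map (h * ·)) (B.map (h * ·)) = J2 Γ n (fun l => φ (l.map (h • ·))) A B := by
  unfold J2
  rw [sdm_mul hG]
  congr 1
  funext l
  rw [sdp_mul hG]
  congr 1
  funext l'
  change φ (l.map (h • ·) ++ l'.map (h • ·)) = φ ((l ++ l').map (h • ·))
  rw [List.map_append]

private theorem Inv_S2k (h n : G) (k : ℕ) (φ : Fn G) (A B : List G) :
    S2k Γ (h * n) k φ (A.map (h * ·)) (B.map (h * ·)) = S2k Γ n k (fun l => φ (l.map (h • ·))) A B := by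
  induction k generalizing φ A B with
  | zero => exact J2_mul hG h n φ A B
  | succ k ih =>
    unfold S2k
    rw [List.length_map, List.length_map]
    split_ifs with hc
    · exact J2_mul hG h n φ A B
    · have hA : A ≠ [] := by
        rintro rfl
        exact hc (Or.inl (by simp))
      have hB : B ≠ [] := by
        rintro rfl
        exact hc (Or.inr (by simp))
      rw [Inv_d2, hG.mid_mul h A B hA hB]
      congr 1
      funext A' B'
      rw [ih]
      congr 1

theorem S2_mul (h n : G) (φ : Fn G) (A B : List G) :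
    S2 Γ (h * n) φ (A.map (h * ·)) (B.map (h * ·)) = S2 Γ n (fun l => φ (l.map (h • ·))) A B := by
  unfold S2
  rw [List.length_map, List.length_map]
  exact Inv_S2k hG h n _ φ A B

theorem Sc_mul (h n : G) (A A' : Finset G) (φ : Fn G) (C : List G) (hA : ∀ g ∈ C, (h * g ∈ A' ↔ g ∈ A)) :
    Sc Γ (h * n) A' φ (C.map (h * ·)) = Sc Γ n A (fun l => φ (l.map (h • ·))) C := by
  classical
  unfold Sc
  rw [Inv_Sh (h * ·) (fun g => g ∈ A) (fun g => g ∈ A') C hA]
  congr 1
  funext X Y
  exact S2_mul hG h n φ X Y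

private theorem Inv_Lamk (h n : G) (A A' : Finset G) (k : ℕ) (φ : Fn G) (C : List G)
    (hk : C.length = k) (hA : ∀ g ∈ C, (h * g ∈ A' ↔ g ∈ A)) :
    Lamk Γ (h * n) A' k φ (C.map (h * ·)) = Lamk Γ n A k (fun l => φ (l.map (h • ·))) C := by
  induction k generalizing φ C with
  | zero => rfl
  | succ k ih =>
    have hC : C ≠ [] := by
      rintro rfl
      simp at hk
    unfold Lamk
    rw [Inv_headD h hC, Sc_mul hG h n A A' _ C hA, dl_map]
    have e1 : (fun l : List (GP G) => cone (GP.int (h * C.headD 1)) φ (l.map (h • ·))) =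
        cone (GP.int (C.headD 1)) (fun l => φ (l.map (h • ·))) := by
      funext l
      simp only [cone, List.map_cons, smul_int]
    have e2 : cone (GP.int (h * C.headD 1)) φ ((C.map (h * ·)).map GP.int) =
        cone (GP.int (C.headD 1)) (fun l => φ (l.map (h • ·))) (C.map GP.int) := by
      rw [← e1]
      change _ = cone (GP.int (h * C.headD 1)) φ ((C.map GP.int).map (h • ·))
      rw [List.map_map, List.map_map]
      rfl
    have e3 : dl (fun l' => Lamk Γ (h * n) A' k (cone (GP.int (h * C.headD 1)) φ) (l'.map (h * ·))) C =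
        dl (Lamk Γ n A k (cone (GP.int (C.headD 1)) (fun l => φ (l.map (h • ·))))) C := by
      refine dl_congr fun i hi => ?_
      rw [ih _ _ (by have := length_face hi; omega) fun g hg => hA g (List.mem_of_mem_eraseIdx hg),
        e1]
    rw [e1, e2, e3]

theorem Lam_mul (h n : G) (A A' : Finset G) (φ : Fn G) (C : List G) (hA : ∀ g ∈ C, (h * g ∈ A' ↔ g ∈ A)) :
    Lam Γ (h * n) A' φ (C.map (h * ·)) = Lam Γ n A (fun l => φ (l.map (h • ·))) C := by
  unfold Lam
  rw [List.length_map]
  exact Inv_Lamk hG h n A A' _ φ C rfl hA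

private theorem Inv_Xi2 (h n : G) (φ : Fn G) (A B : List G) :
    Xi2 Γ (h * n) φ (A.map (h * ·)) (B.map (h * ·)) = Xi2 Γ n (fun l => φ (l.map (h • ·))) A B := by
  unfold Xi2
  simp only [List.map_eq_nil_iff]
  split_ifs
  · rw [sdp_mul hG]
    congr 1
  · rw [sdm_mul hG, List.length_map]
    congr 2
    funext l
    rw [List.map_append, Inv_opp]
    rfl
  · rfl

theorem Xi_mul (h n : G) (A A' : Finset G) (φ : Fn G) (C : List G) (hA : ∀ g ∈ C, (h * g ∈ A' ↔ g ∈ A)) :
    Xi Γ (h * n) A' φ (C.map (h * ·)) = Xi Γ n A (fun l => φ (l.map (h • ·))) C := by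
  classical
  unfold Xi
  rw [Inv_Sh (h * ·) (fun g => g ∈ A) (fun g => g ∈ A') C hA]
  congr 1
  funext X Y
  exact Inv_Xi2 hG h n φ X Y

theorem gtd_mul {N : ℕ} (S : Sys Γ N) (h n : G) (A A' : Finset G) (C' : List G) (s t : G)
    (hA : ∀ g ∈ C', (h * g ∈ A' ↔ g ∈ A)) :
    gtd S (h * n) A' (C'.map (h * ·)) (h * s) (h * t) = gtd S n A C' s t := by
  unfold gtd
  rw [Lam_mul hG h n A A' _ C' hA, Xi_mul hG h n A A' _ C' hA]
  simp only [S.F_inv]

end Pool.Agent.Helper14.BN
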