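import Pool.Agent.Helper14.BN.Sd

/-!
# Project BR, block NECK, piece BCN-FL: flags

The lists of `sdp Γ n · B` are `[Γ.root n E₁, …, Γ.root n E_m, bdp b]`, `B = E₁ ⊃ … ⊃ E_m ⊃ [b]`, `m = |B| - 1`.
Proof: strong induction on `|B|` (generalise `φ, ψ`), `sd_ne`, `dl_sub`, `abs_dl_le`; for `|B| = 1` use
`sd_single`.
-/

set_option autoImplicit false

namespace Pool.Agent.Helper14.BN

open Pool.Agent.Helper11.BC (dl)
open Pool.Agent.Helper11.BR
open Pool.Agent.Helper14.BC
open Pool.Agent.Helper14.BR (d_nonneg d_comm d_triangle d_self)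

variable {G : Type} [Group G] [TopologicalSpace G] {Γ : R1 G}

theorem sdp_flag (n : G) (φ ψ : Fn G) (B : List G) (hB : B ≠ []) (c : ℝ)
    (h : ∀ (Ds : List (List G)) (b : G), b ∈ B →
      (∀ E ∈ Ds, E.Sublist B ∧ b ∈ E ∧ 2 ≤ E.length) → Ds.length + 1 = B.length →
      |φ (Ds.map (fun E => GP.int (Γ.root n E)) ++ [GP.bdp b]) -
        ψ (Ds.map (fun E => GP.int (Γ.root n E)) ++ [GP.bdp b])| ≤ c) :
    |sdp Γ n φ B - sdp Γ n ψ B| ≤ (B.length.factorial : ℝ) * c := by
  obtain ⟨k, hk⟩ : ∃ k, B.length = k + 1 :=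
    ⟨B.length - 1, by have := List.length_pos_iff.2 hB; omega⟩
  induction k generalizing B φ ψ with
  | zero =>
    obtain ⟨g, rfl⟩ := List.length_eq_one_iff.1 hk
    have h1 := h [] g (by simp) (by simp) (by simp)
    have h2 : rt Γ n [g] = GP.bdp g := by simp [rt]
    unfold sdp
    rw [sd_single, sd_single, h2]
    simpa using h1
  | succ k ih =>
    have hr : rt Γ n B = GP.int (Γ.root n B) := by
      unfold rt
      rw [if_neg (by omega)]
    unfold sdp
    rw [sd_ne hB, sd_ne hB, ← dl_sub, hk, Nat.factorial_succ, hr]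
    have h1 : ∀ i < B.length, |(fun x => sd (rt Γ n) (cone (GP.int (Γ.root n B)) φ) x -
        sd (rt Γ n) (cone (GP.int (Γ.root n B)) ψ) x) (B.eraseIdx i)| ≤
        ((k + 1).factorial : ℝ) * c := by
      intro i hi
      have hl : (B.eraseIdx i).length = k + 1 := by
        have := length_face hi
        omega
      have hsub : (B.eraseIdx i).Sublist B := List.eraseIdx_sublist _ _
      have h2 := ih (cone (GP.int (Γ.root n B)) φ) (cone (GP.int (Γ.root n B)) ψ) (B.eraseIdx i)
        (by
          intro h0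
          rw [h0] at hl
          simp at hl)
        (fun Ds b hb hDs hlen => by
          have h3 := h (B :: Ds) b (hsub.subset hb) (by
            intro E hE
            rcases List.mem_cons.1 hE with rfl | hE
            · exact ⟨List.Sublist.refl _, hsub.subset hb, by omega⟩
            · exact ⟨(hDs E hE).1.trans hsub, (hDs E hE).2⟩) (by
            rw [List.length_cons]
            omega)
          simpa [cone] using h3) hl
      rw [hl] at h2
      exact h2
    have h3 := abs_dl_le (Φ := fun x => sd (rt Γ n) (cone (GP.int (Γ.root n B)) φ) x -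
        sd (rt Γ n) (cone (GP.int (Γ.root n B)) ψ) x) h1
    rw [hk] at h3
    refine h3.trans (le_of_eq ?_)
    push_cast
    ring

end Pool.Agent.Helper14.BN
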