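import Pool.Agent.Helper14.BN.Sd

/-!
# Project BR, block NECK: Lemma A for lists of points

For bounded `τ₂ - τ₁` everything is bounded by `F_growth`.  Otherwise use the parabolic element
`p = par b a' a` (`p` fixes the end of `b` and moves the end of `a'` to the end of `a`), the
transport estimate and the displacements: `ln n τ₁`, `ln n τ₂` are moved by `O(1)`, the roots of lists
`E ∋ b` behind and the points `mid z.1 z.2` by `O(exp (-(τ₂ - τ₁) / 2))`.
`LA2` is the mirror image (frame `opp n`).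
-/

set_option autoImplicit false

namespace Pool.Agent.Helper14.BN

open Pool.Agent.Helper11.BC (dl)
open Pool.Agent.Helper11.BR
open Pool.Agent.Helper14.BC
open Pool.Agent.Helper14.BR (d_nonneg d_comm d_triangle d_self)

variable {G : Type} [Group G] [TopologicalSpace G] {Γ : R1 G}

/-- a pair of lists on the two sides of a segment -/
structure NeckOK (Γ : R1 G) (n : G) (τ₁ τ₂ : ℝ) (A B : List G) : Prop where
  hA : 2 ≤ A.length
  hB : 2 ≤ B.length
  gA : Γ.Generic A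
  gB : Γ.Generic B
  ah : ∀ a ∈ A, Γ.Ahead n τ₂ a
  be : ∀ b ∈ B, Γ.Behind n τ₁ b

/-- the interior point of a pair -/
noncomputable def npt (Γ : R1 G) (z : List G × List G) : GP G := GP.int (Γ.mid z.1 z.2)

/-- the root of a list as a point -/
noncomputable def rpt (Γ : R1 G) (n : G) (E : List G) : GP G := GP.int (Γ.root n E)

/-! ### Comparison of lists of points and transport -/

/-- interior points at distance at most `δ`, or the same boundary point -/
inductive LAR (Γ : R1 G) (δ : ℝ) : GP G → GP G → Prop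
  | int {g h : G} : Γ.d g h ≤ δ → LAR Γ δ (GP.int g) (GP.int h)
  | bdp {g h : G} : Γ.SameEnd g h → LAR Γ δ (GP.bdp g) (GP.bdp h)

theorem F_cmp {N : ℕ} (S : Sys Γ N) {δ : ℝ} (hδ : 0 ≤ δ) (s t : G)
    {X X' : List (GP G)} (h : List.Forall₂ (LAR Γ δ) X X') : ∀ Y Z : List (GP G),
      (Y ++ (X ++ Z)).length = N →
      |S.F (Y ++ (X ++ Z)) s t - S.F (Y ++ (X' ++ Z)) s t| ≤ X.length * (S.C * Γ.d s t * δ) := by
  have hC : 0 ≤ S.C := le_trans zero_le_one S.one_le_C
  have hd := d_nonneg Γ s t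
  induction h with
  | nil =>
    intro Y Z _
    simp
  | @cons x x' X X' hx hX ih =>
    intro Y Z hl
    have h1 : |S.F (Y ++ x :: (X ++ Z)) s t - S.F (Y ++ x' :: (X ++ Z)) s t| ≤
        S.C * Γ.d s t * δ := by
      cases hx with
      | int hd' =>
        refine (S.F_lip Y (X ++ Z) _ _ s t hl).trans ?_
        exact mul_le_mul_of_nonneg_left hd' (mul_nonneg hC hd)
      | bdp hd' =>
        rw [S.F_same Y (X ++ Z) _ _ s t hl hd', sub_self, abs_zero]
        exact mul_nonneg (mul_nonneg hC hd) hδ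
    have h2 := ih (Y ++ [x']) Z (by
      rw [← hl]
      simp only [List.length_append, List.length_cons, List.length_nil]
      omega)
    rw [List.append_assoc, List.append_assoc, List.singleton_append, List.singleton_append] at h2
    have h3 := abs_sub_le (S.F (Y ++ x :: (X ++ Z)) s t) (S.F (Y ++ x' :: (X ++ Z)) s t)
      (S.F (Y ++ x' :: (X' ++ Z)) s t)
    rw [List.cons_append, List.cons_append, List.length_cons]
    push_cast
    linarith

/-- the transport estimate -/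
theorem F_transport {N : ℕ} (S : Sys Γ N) {δ : ℝ} (hδ : 0 ≤ δ) (s t : G)
    (p : G) {X X' : List (GP G)} (hX : X.length = N)
    (h : List.Forall₂ (LAR Γ δ) X (X'.map (p • ·))) :
    |S.F X s t - S.F X' s t| ≤ S.C * (N * (Γ.d s t * δ) + Γ.d s (p * s) + Γ.d t (p * t)) := by
  have hl := h.length_eq
  have hX' : (X'.map (p • ·)).length = N := hl.symm.trans hX
  have h1 := F_cmp S hδ s t h [] [] (by simpa using hX)
  rw [List.nil_append, List.nil_append, List.append_nil, List.append_nil, hX] at h1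
  have h2 := S.F_inv p X' s t
  have h3 := S.F_add (X'.map (p • ·)) (p * s) s (p * t) hX'
  have h4 := S.F_add (X'.map (p • ·)) s t (p * t) hX'
  have h5 := S.F_growth _ (p * s) s hX'
  have h6 := S.F_growth _ t (p * t) hX'
  rw [d_comm Γ] at h5
  rw [abs_le] at *
  constructor <;> linarith [h1.1, h1.2, h5.1, h5.2, h6.1, h6.2]

theorem mul_exp_le {M L : ℝ} (hM : 0 ≤ M) : L * (M * Real.exp (-L / 2)) ≤ 2 * M := by
  have h1 := Real.add_one_le_exp (L / 2)
  have h2 : Real.exp (L / 2) * Real.exp (-L / 2) = 1 := by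
    rw [← Real.exp_add]
    simp [neg_div]
  have h3 := Real.exp_pos (-L / 2)
  have h4 : L * Real.exp (-L / 2) ≤ 2 := by nlinarith
  nlinarith

theorem F_short {N : ℕ} (S : Sys Γ N) {s t : G} {L : ℝ} (h : Γ.d s t ≤ L)
    {X X' : List (GP G)} (hX : X.length = N) (hX' : X'.length = N) :
    |S.F X s t - S.F X' s t| ≤ S.C * (2 * L) := by
  have hC : 0 ≤ S.C := le_trans zero_le_one S.one_le_C
  have h2 := S.F_growth X s t hX
  have h3 := S.F_growth X' s t hX'
  have h5 := abs_sub (S.F X s t) (S.F X' s t)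
  have h6 : S.C * Γ.d s t ≤ S.C * L := mul_le_mul_of_nonneg_left h hC
  linarith

theorem F_long {N : ℕ} (S : Sys Γ N) {p s t : G} {L M K : ℝ} (hM : 0 ≤ M) (hL : Γ.d s t = L)
    {X X' : List (GP G)} (hX : X.length = N)
    (h : List.Forall₂ (LAR Γ (M * Real.exp (-L / 2))) X (X'.map (p • ·)))
    (hs : Γ.d s (p * s) ≤ K) (ht : Γ.d t (p * t) ≤ K) :
    |S.F X s t - S.F X' s t| ≤ S.C * (N * (2 * M) + K + K) := by
  have hC : 0 ≤ S.C := le_trans zero_le_one S.one_le_C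
  refine (F_transport S (by positivity) _ _ p hX h).trans (mul_le_mul_of_nonneg_left ?_ hC)
  have h5 := mul_exp_le (L := L) hM
  rw [hL]
  have h6 := mul_le_mul_of_nonneg_left h5 (Nat.cast_nonneg (α := ℝ) N)
  linarith

theorem NeckOK.generic (hG : NeckGeo Γ) {n : G} {τ₁ τ₂ : ℝ} {A B : List G}
    (h : NeckOK Γ n τ₁ τ₂ A B) (hτ : τ₁ < τ₂) : Γ.Generic (A ++ B) := by
  unfold R1.Generic
  rw [List.pairwise_append]
  refine ⟨h.gA, h.gB, fun a ha b hb hab => ?_⟩
  exact hG.not_same n τ₁ τ₂ a b hτ (h.be b hb) (h.ah a ha) (hG.same_symm _ _ hab)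

theorem exp_half {x : ℝ} (hx : 0 ≤ x) {K M : ℝ} (h : |K| ≤ M) :
    K * Real.exp (-x) ≤ M * Real.exp (-x / 2) := by
  have h1 : Real.exp (-x) ≤ Real.exp (-x / 2) := Real.exp_le_exp.2 (by linarith)
  have h2 := Real.exp_pos (-x)
  have h3 := Real.exp_pos (-x / 2)
  have h4 := le_abs_self K
  have h5 := abs_nonneg K
  calc K * Real.exp (-x) ≤ M * Real.exp (-x) := mul_le_mul_of_nonneg_right (h4.trans h) h2.le
    _ ≤ _ := mul_le_mul_of_nonneg_left h1 (h5.trans h)

theorem LA1 (hG : NeckGeo Γ) {N : ℕ} (S : Sys Γ N) : ∃ K : ℝ, 1 ≤ K ∧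
    ∀ (n : G) (τ₁ τ₂ : ℝ) (zs : List (List G × List G)) (Ds : List (List G)) (a a' b : G),
      τ₁ ≤ τ₂ → zs.length + Ds.length + 2 = N →
      Γ.Ahead n τ₂ a → Γ.Ahead n τ₂ a' → Γ.Behind n τ₁ b →
      (∀ z ∈ zs, NeckOK Γ n τ₁ τ₂ z.1 z.2 ∧ a ∈ z.1 ∧ a' ∈ z.1 ∧ b ∈ z.2) →
      (∀ E ∈ Ds, (∀ g ∈ E, Γ.Behind n τ₁ g) ∧ Γ.Generic E ∧ 2 ≤ E.length ∧ b ∈ E) →
      |S.F (zs.map (npt Γ) ++ (GP.bdp a :: (Ds.map (rpt Γ n) ++ [GP.bdp b]))) (Γ.ln n τ₁)
          (Γ.ln n τ₂) -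
        S.F (zs.map (npt Γ) ++ (GP.bdp a' :: (Ds.map (rpt Γ n) ++ [GP.bdp b]))) (Γ.ln n τ₁)
          (Γ.ln n τ₂)| ≤ K := by
  have hC : 0 ≤ S.C := le_trans zero_le_one S.one_le_C
  obtain ⟨K₁, L₁, h1⟩ := hG.disp_ln
  obtain ⟨K₂, L₂, h2⟩ := hG.disp_root
  obtain ⟨K₃, L₃, h3⟩ := hG.disp_mid
  set L := |L₁| + |L₂| + |L₃| + 1 with hL
  set M := |K₂| + |K₃| with hM
  have a1 := abs_nonneg L₁
  have a2 := abs_nonneg L₂
  have a3 := abs_nonneg L₃
  have b1 := le_abs_self L₁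
  have b2 := le_abs_self L₂
  have b3 := le_abs_self L₃
  have c1 := abs_nonneg K₁
  have c2 := abs_nonneg K₂
  have c3 := abs_nonneg K₃
  have d1 := le_abs_self K₁
  have d2 := le_abs_self K₂
  have d3 := le_abs_self K₃
  have hM0 : 0 ≤ M := by positivity
  have hL0 : 1 ≤ L := by linarith
  have t1 : 0 ≤ S.C * (2 * L) := mul_nonneg hC (by linarith)
  have t2 : 0 ≤ S.C * (N * (2 * M) + |K₁| + |K₁|) := by positivity
  refine ⟨S.C * (2 * L) + S.C * (N * (2 * M) + |K₁| + |K₁|) + 1, by linarith, ?_⟩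
  intro n τ₁ τ₂ zs Ds a a' b hτ hN ha ha' hb hz hD
  have hl : ∀ x : G, (zs.map (npt Γ) ++
      (GP.bdp x :: (Ds.map (rpt Γ n) ++ [GP.bdp b]))).length = N := by
    intro x
    simp only [List.length_append, List.length_map, List.length_cons, List.length_nil]
    omega
  have hdist : Γ.d (Γ.ln n τ₁) (Γ.ln n τ₂) = τ₂ - τ₁ := by
    rw [hG.ln_dist, abs_sub_comm, abs_of_nonneg (by linarith)]
  rcases lt_or_ge τ₂ (τ₁ + L) with h4 | h4
  · have := F_short S (L := L) (by rw [hdist]; linarith) (hl a) (hl a')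
    linarith
  have hba := hG.not_same n τ₁ τ₂ a b (by linarith) hb ha
  have hba' := hG.not_same n τ₁ τ₂ a' b (by linarith) hb ha'
  have e1 := h1 n τ₁ τ₂ a a' b (by linarith) ha ha' hb
  have key := F_long (p := Γ.par b a' a) (K := |K₁|) S hM0 hdist (hl a)
    (X' := zs.map (npt Γ) ++ (GP.bdp a' :: (Ds.map (rpt Γ n) ++ [GP.bdp b]))) ?_
    (e1.1.trans d1) (e1.2.trans d1)
  · linarith
  · rw [List.map_append, List.map_cons, List.map_append, List.map_map, List.map_map]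
    refine List.rel_append ?_ (List.Forall₂.cons ?_ (List.rel_append ?_ ?_))
    · rw [List.forall₂_map_left_iff, List.forall₂_map_right_iff, List.forall₂_same]
      intro z hz'
      obtain ⟨g1, g2, g3, g5⟩ := hz z hz'
      refine LAR.int ?_
      refine (h3 n τ₁ τ₂ a a' b z.1 z.2 (by linarith) (g1.generic hG (by linarith)) g1.hA g1.hB
        g1.ah g1.be g2 g3 g5).trans ?_
      exact mul_le_mul_of_nonneg_right (by linarith) (Real.exp_pos _).le
    · exact LAR.bdp (hG.par_map _ _ _ hba' hba)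
    · rw [List.forall₂_map_left_iff, List.forall₂_map_right_iff, List.forall₂_same]
      intro E hE
      obtain ⟨g1, g2, g3, g5⟩ := hD E hE
      refine LAR.int ?_
      refine (h2 n τ₁ τ₂ a a' b E (by linarith) ha ha' g5 g1 g2 g3).trans ?_
      exact exp_half (by linarith) (by linarith)
    · exact List.Forall₂.cons (LAR.bdp (hG.par_fix b a' a)) List.Forall₂.nil

theorem LA2 (hG : NeckGeo Γ) {N : ℕ} (S : Sys Γ N) : ∃ K : ℝ, 1 ≤ K ∧
    ∀ (n : G) (τ₁ τ₂ : ℝ) (zs : List (List G × List G)) (Ds : List (List G)) (a b b' : G),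
      τ₁ ≤ τ₂ → zs.length + Ds.length + 2 = N →
      Γ.Ahead n τ₂ a → Γ.Behind n τ₁ b → Γ.Behind n τ₁ b' →
      (∀ z ∈ zs, NeckOK Γ n τ₁ τ₂ z.1 z.2 ∧ a ∈ z.1 ∧ b ∈ z.2 ∧ b' ∈ z.2) →
      (∀ E ∈ Ds, (∀ g ∈ E, Γ.Ahead n τ₂ g) ∧ Γ.Generic E ∧ 2 ≤ E.length ∧ a ∈ E) →
      |S.F (zs.map (npt Γ) ++ (Ds.map (rpt Γ (opp Γ n)) ++ [GP.bdp a, GP.bdp b])) (Γ.ln n τ₁)
          (Γ.ln n τ₂) -
        S.F (zs.map (npt Γ) ++ (Ds.map (rpt Γ (opp Γ n)) ++ [GP.bdp a, GP.bdp b'])) (Γ.ln n τ₁)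
          (Γ.ln n τ₂)| ≤ K := by
  have hC : 0 ≤ S.C := le_trans zero_le_one S.one_le_C
  obtain ⟨K₁, L₁, h1⟩ := hG.disp_ln'
  obtain ⟨K₂, L₂, h2⟩ := hG.disp_root
  obtain ⟨K₃, L₃, h3⟩ := hG.disp_mid'
  set L := |L₁| + |L₂| + |L₃| + 1 with hL
  set M := |K₂| + |K₃| with hM
  have a1 := abs_nonneg L₁
  have a2 := abs_nonneg L₂
  have a3 := abs_nonneg L₃
  have b1 := le_abs_self L₁
  have b2 := le_abs_self L₂
  have b3 := le_abs_self L₃
  have c1 := abs_nonneg K₁
  have c2 := abs_nonneg K₂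
  have c3 := abs_nonneg K₃
  have d1 := le_abs_self K₁
  have d2 := le_abs_self K₂
  have d3 := le_abs_self K₃
  have hM0 : 0 ≤ M := by positivity
  have hL0 : 1 ≤ L := by linarith
  have t1 : 0 ≤ S.C * (2 * L) := mul_nonneg hC (by linarith)
  have t2 : 0 ≤ S.C * (N * (2 * M) + |K₁| + |K₁|) := by positivity
  refine ⟨S.C * (2 * L) + S.C * (N * (2 * M) + |K₁| + |K₁|) + 1, by linarith, ?_⟩
  intro n τ₁ τ₂ zs Ds a b b' hτ hN ha hb hb' hz hD
  have hl : ∀ x : G, (zs.map (npt Γ) ++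
      (Ds.map (rpt Γ (opp Γ n)) ++ [GP.bdp a, GP.bdp x])).length = N := by
    intro x
    simp only [List.length_append, List.length_map, List.length_cons, List.length_nil]
    omega
  have hdist : Γ.d (Γ.ln n τ₁) (Γ.ln n τ₂) = τ₂ - τ₁ := by
    rw [hG.ln_dist, abs_sub_comm, abs_of_nonneg (by linarith)]
  rcases lt_or_ge τ₂ (τ₁ + L) with h4 | h4
  · have := F_short S (L := L) (by rw [hdist]; linarith) (hl b) (hl b')
    linarith
  have hab : ¬ Γ.SameEnd a b := fun h =>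
    hG.not_same n τ₁ τ₂ a b (by linarith) hb ha (hG.same_symm _ _ h)
  have hab' : ¬ Γ.SameEnd a b' := fun h =>
    hG.not_same n τ₁ τ₂ a b' (by linarith) hb' ha (hG.same_symm _ _ h)
  have e1 := h1 n τ₁ τ₂ a b b' (by linarith) ha hb hb'
  have key := F_long (p := Γ.par a b' b) (K := |K₁|) S hM0 hdist (hl b)
    (X' := zs.map (npt Γ) ++ (Ds.map (rpt Γ (opp Γ n)) ++ [GP.bdp a, GP.bdp b'])) ?_
    (e1.1.trans d1) (e1.2.trans d1)
  · linarith
  · rw [List.map_append, List.map_append, List.map_map, List.map_map]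
    refine List.rel_append ?_ (List.rel_append ?_ ?_)
    · rw [List.forall₂_map_left_iff, List.forall₂_map_right_iff, List.forall₂_same]
      intro z hz'
      obtain ⟨g1, g2, g3, g5⟩ := hz z hz'
      refine LAR.int ?_
      refine (h3 n τ₁ τ₂ a b b' z.1 z.2 (by linarith) (g1.generic hG (by linarith)) g1.hA g1.hB
        g1.ah g1.be g2 g3 g5).trans ?_
      exact mul_le_mul_of_nonneg_right (by linarith) (Real.exp_pos _).le
    · rw [List.forall₂_map_left_iff, List.forall₂_map_right_iff, List.forall₂_same]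
      intro E hE
      obtain ⟨g1, g2, g3, g5⟩ := hD E hE
      refine LAR.int ?_
      refine (h2 (opp Γ n) (-τ₂) (-τ₁) b b' a E (by linarith)
        ((hG.ahead_flip n τ₁ b).2 hb) ((hG.ahead_flip n τ₁ b').2 hb') g5
        (fun g hg => (hG.behind_flip n τ₂ g).2 (g1 g hg)) g2 g3).trans ?_
      have e2 : -(-τ₁ - -τ₂) = -(τ₂ - τ₁) := by ring
      rw [e2]
      exact exp_half (by linarith) (by linarith)
    · exact List.Forall₂.cons (LAR.bdp (hG.par_fix a b' b))
        (List.Forall₂.cons (LAR.bdp (hG.par_map _ _ _ hab' hab)) List.Forall₂.nil)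

end Pool.Agent.Helper14.BN
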