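import Pool.Agent.Helper14.BN.Growth
import Pool.Agent.Helper14.BN.Flags
import Pool.Agent.Helper14.BN.LA

/-!
# Project BR, block NECK: two frames, `Lam`

For bounded `τ₂ - τ₁` use the growth.  Otherwise `Lam_cmp` with the roots seen from the two frames
(`root_close`); the points `mid`, `int g`, `bdp g` do not depend on the frame.
-/

set_option autoImplicit false

namespace Pool.Agent.Helper14.BN

open Pool.Agent.Helper11.BC (dl)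
open Pool.Agent.Helper11.BR
open Pool.Agent.Helper14.BC
open Pool.Agent.Helper14.BR (d_nonneg d_comm d_triangle d_self)

variable {G : Type} [Group G] [TopologicalSpace G] {Γ : R1 G}

theorem LAR.refl (hG : NeckGeo Γ) {δ : ℝ} (hδ : 0 ≤ δ) (p : GP G) : LAR Γ δ p p := by
  cases p with
  | int g => exact LAR.int (by rw [d_self]; exact hδ)
  | bdp g => exact LAR.bdp (hG.same_refl g)

theorem mul_exp_le' (L : ℝ) : L * Real.exp (-L) ≤ 1 := by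
  have h1 := Real.add_one_le_exp L
  have h2 : Real.exp L * Real.exp (-L) = 1 := by
    rw [← Real.exp_add]
    simp
  have h3 := Real.exp_pos (-L)
  nlinarith

theorem ln_opp (hG : NeckGeo Γ) (n n' : G) (τ τ' : ℝ) :
    Γ.d (Γ.ln (opp Γ n) τ) (Γ.ln (opp Γ n') τ') = Γ.d (Γ.ln n (-τ)) (Γ.ln n' (-τ')) := by
  have h1 := hG.ln_flip n τ
  have h2 := hG.ln_flip n' τ'
  have h3 := d_triangle Γ (Γ.ln (opp Γ n) τ) (Γ.ln n (-τ)) (Γ.ln (opp Γ n') τ')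
  have h4 := d_triangle Γ (Γ.ln n (-τ)) (Γ.ln n' (-τ')) (Γ.ln (opp Γ n') τ')
  have h5 := d_triangle Γ (Γ.ln n (-τ)) (Γ.ln (opp Γ n) τ) (Γ.ln n' (-τ'))
  have h6 := d_triangle Γ (Γ.ln (opp Γ n) τ) (Γ.ln (opp Γ n') τ') (Γ.ln n' (-τ'))
  have h7 := d_comm Γ (Γ.ln n (-τ)) (Γ.ln (opp Γ n) τ)
  have h8 := d_comm Γ (Γ.ln n' (-τ')) (Γ.ln (opp Γ n') τ')
  refine le_antisymm ?_ ?_
  · rw [h1, zero_add] at h3
    rw [h8, h2, add_zero] at h4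
    exact h3.trans h4
  · rw [h7, h1, zero_add] at h5
    rw [h2, add_zero] at h6
    exact h5.trans h6

/-- the roots of a list seen from two frames -/
theorem root_close2 (hG : NeckGeo Γ) (C₀ : ℝ) : ∃ K L₀ : ℝ, 0 ≤ K ∧ 0 ≤ L₀ ∧
    ∀ (n n' : G) (τ₁ τ₂ τ₁' τ₂' : ℝ) (E : List G), L₀ ≤ τ₂ - τ₁ → τ₁' ≤ τ₂' →
      Γ.d (Γ.ln n τ₁) (Γ.ln n' τ₁') ≤ C₀ → Γ.d (Γ.ln n τ₂) (Γ.ln n' τ₂') ≤ C₀ →
      Γ.Generic E → 2 ≤ E.length → (∀ g ∈ E, Γ.Behind n τ₁ g ∧ Γ.Behind n' τ₁' g) →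
      Γ.d (Γ.root n E) (Γ.root n' E) ≤ K * Real.exp (-(τ₂ - τ₁)) := by
  obtain ⟨K, L, h⟩ := hG.root_close C₀
  refine ⟨|K|, |L|, abs_nonneg _, abs_nonneg _, ?_⟩
  intro n n' τ₁ τ₂ τ₁' τ₂' E hL h' h1 h2 hE hE2 hB
  have h3 := le_abs_self L
  refine (h n n' τ₁ τ₂ τ₁' τ₂' E (by linarith) h' h1 h2 hE hE2 (fun g hg => (hB g hg).1)
    (fun g hg => (hB g hg).2)).trans ?_
  exact mul_le_mul_of_nonneg_right (le_abs_self K) (Real.exp_pos _).le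

/-- the roots of a list of elements ahead seen from two frames -/
theorem root_close3 (hG : NeckGeo Γ) (C₀ : ℝ) : ∃ K L₀ : ℝ, 0 ≤ K ∧ 0 ≤ L₀ ∧
    ∀ (n n' : G) (τ₁ τ₂ τ₁' τ₂' : ℝ) (E : List G), L₀ ≤ τ₂ - τ₁ → τ₁' ≤ τ₂' →
      Γ.d (Γ.ln n τ₁) (Γ.ln n' τ₁') ≤ C₀ → Γ.d (Γ.ln n τ₂) (Γ.ln n' τ₂') ≤ C₀ →
      Γ.Generic E → 2 ≤ E.length → (∀ g ∈ E, Γ.Ahead n τ₂ g ∧ Γ.Ahead n' τ₂' g) →
      Γ.d (Γ.root (opp Γ n) E) (Γ.root (opp Γ n') E) ≤ K * Real.exp (-(τ₂ - τ₁)) := by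
  obtain ⟨K, L, hK, hL, h⟩ := root_close2 hG C₀
  refine ⟨K, L, hK, hL, ?_⟩
  intro n n' τ₁ τ₂ τ₁' τ₂' E hL h' h1 h2 hE hE2 hA
  have h3 := h (opp Γ n) (opp Γ n') (-τ₂) (-τ₁) (-τ₂') (-τ₁') E (by linarith) (by linarith)
    (by rw [ln_opp hG, neg_neg, neg_neg]; exact h2) (by rw [ln_opp hG, neg_neg, neg_neg]; exact h1)
    hE hE2 (fun g hg => ⟨(hG.behind_flip n τ₂ g).2 (hA g hg).1,
      (hG.behind_flip n' τ₂' g).2 (hA g hg).2⟩)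
  have h4 : -(-τ₁ - -τ₂) = -(τ₂ - τ₁) := by ring
  rwa [h4] at h3

theorem Lam_close (hG : NeckGeo Γ) {N : ℕ} (S : Sys Γ N) : ∀ C₀ : ℝ, ∃ K₀ : ℝ,
    ∀ (n n' : G) (τ₁ τ₂ τ₁' τ₂' : ℝ) (A : Finset G) (C' : List G),
    τ₁ ≤ τ₂ → τ₁' ≤ τ₂' → Γ.Generic C' → C'.length + 1 = N →
    (∀ g ∈ C', g ∈ A → Γ.Ahead n τ₂ g ∧ Γ.Ahead n' τ₂' g) →
    (∀ g ∈ C', g ∉ A → Γ.Behind n τ₁ g ∧ Γ.Behind n' τ₁' g) →
    Γ.d (Γ.ln n τ₁) (Γ.ln n' τ₁') ≤ C₀ → Γ.d (Γ.ln n τ₂) (Γ.ln n' τ₂') ≤ C₀ →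
    |Lam Γ n A (fun X => S.F X (Γ.ln n τ₁) (Γ.ln n τ₂)) C' -
      Lam Γ n' A (fun X => S.F X (Γ.ln n τ₁) (Γ.ln n τ₂)) C'| ≤ K₀ := by
  intro C₀
  have hC : 0 ≤ S.C := le_trans zero_le_one S.one_le_C
  obtain ⟨K₁, L₁, hK₁, hL₁, r1⟩ := root_close2 hG C₀
  obtain ⟨K₂, L₂, hK₂, hL₂, r2⟩ := root_close3 hG C₀
  obtain ⟨M, hM⟩ : ∃ M : ℝ, M = 2 * ((N - 1 : ℕ) : ℝ) * ((N - 1).factorial : ℝ) := ⟨_, rfl⟩
  have hM0 : 0 ≤ M := by
    rw [hM]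
    positivity
  refine ⟨M * (N * (S.C * (K₁ + K₂))) + 2 * (M * (S.C * (L₁ + L₂))), ?_⟩
  intro n n' τ₁ τ₂ τ₁' τ₂' A C' ht ht' hGe hl hA hB hd1 hd2
  have hlen : C'.length = N - 1 := by omega
  have hdist : Γ.d (Γ.ln n τ₁) (Γ.ln n τ₂) = τ₂ - τ₁ := by
    rw [hG.ln_dist, abs_sub_comm, abs_of_nonneg (by linarith)]
  rcases lt_or_ge (τ₂ - τ₁) (L₁ + L₂) with hL | hL
  · have hφ : ∀ l : List (GP G), l.length = C'.length + 1 →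
        |(fun X => S.F X (Γ.ln n τ₁) (Γ.ln n τ₂)) l| ≤ S.C * (L₁ + L₂) := by
      intro l hll
      refine (S.F_growth _ _ _ (hll.trans hl)).trans (mul_le_mul_of_nonneg_left ?_ hC)
      rw [hdist]
      exact hL.le
    have hc0 : 0 ≤ S.C * (L₁ + L₂) := mul_nonneg hC (by linarith)
    have h1 := Lam_abs (Γ := Γ) (n := n) (A := A) hc0 hφ
    have h2 := Lam_abs (Γ := Γ) (n := n') (A := A) hc0 hφ
    rw [hlen, ← hM] at h1 h2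
    have h3 := abs_sub (Lam Γ n A (fun X => S.F X (Γ.ln n τ₁) (Γ.ln n τ₂)) C')
      (Lam Γ n' A (fun X => S.F X (Γ.ln n τ₁) (Γ.ln n τ₂)) C')
    have h4 : 0 ≤ M * (N * (S.C * (K₁ + K₂))) := by positivity
    linarith
  · obtain ⟨δ, hδ⟩ : ∃ δ : ℝ, δ = (K₁ + K₂) * Real.exp (-(τ₂ - τ₁)) := ⟨_, rfl⟩
    have hδ0 : 0 ≤ δ := by
      rw [hδ]
      positivity
    have hR : ∀ g, LAR Γ δ (GP.int g) (GP.int g) := fun g => LAR.refl hG hδ0 _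
    have hsub : ∀ E : List G, E.Sublist C' → Γ.Generic E := fun E hE => List.Pairwise.sublist hE hGe
    have hRA : ∀ E : List G, E.Sublist C' → E ≠ [] → (∀ g ∈ E, g ∈ A) →
        LAR Γ δ (rt Γ (opp Γ n) E) (rt Γ (opp Γ n') E) := by
      intro E hE _ hEA
      unfold rt
      split_ifs with h1
      · exact LAR.refl hG hδ0 _
      · refine LAR.int ((r2 n n' τ₁ τ₂ τ₁' τ₂' E (by linarith) ht' hd1 hd2 (hsub E hE) (by omega)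
          fun g hg => hA g (hE.subset hg) (hEA g hg)).trans ?_)
        rw [hδ]
        exact mul_le_mul_of_nonneg_right (by linarith) (Real.exp_pos _).le
    have hRB : ∀ E : List G, E.Sublist C' → E ≠ [] → (∀ g ∈ E, g ∉ A) →
        LAR Γ δ (rt Γ n E) (rt Γ n' E) := by
      intro E hE _ hEA
      unfold rt
      split_ifs with h1
      · exact LAR.refl hG hδ0 _
      · refine LAR.int ((r1 n n' τ₁ τ₂ τ₁' τ₂' E (by linarith) ht' hd1 hd2 (hsub E hE) (by omega)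
          fun g hg => hB g (hE.subset hg) (hEA g hg)).trans ?_)
        rw [hδ]
        exact mul_le_mul_of_nonneg_right (by linarith) (Real.exp_pos _).le
    have hest := mul_exp_le' (τ₂ - τ₁)
    have hc : ∀ l l' : List (GP G), l.length = C'.length + 1 → List.Forall₂ (LAR Γ δ) l l' →
        |(fun X => S.F X (Γ.ln n τ₁) (Γ.ln n τ₂)) l - (fun X => S.F X (Γ.ln n τ₁) (Γ.ln n τ₂)) l'| ≤
          N * (S.C * (K₁ + K₂)) := by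
      intro l l' hll hr
      have h0 := F_cmp S hδ0 (Γ.ln n τ₁) (Γ.ln n τ₂) hr [] [] (by simpa using hll.trans hl)
      rw [List.nil_append, List.nil_append, List.append_nil, List.append_nil, hll.trans hl] at h0
      refine h0.trans (mul_le_mul_of_nonneg_left ?_ (Nat.cast_nonneg (α := ℝ) N))
      rw [hdist, hδ]
      have h2 : 0 ≤ S.C * (K₁ + K₂) := by positivity
      calc S.C * (τ₂ - τ₁) * ((K₁ + K₂) * Real.exp (-(τ₂ - τ₁)))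
          = S.C * (K₁ + K₂) * ((τ₂ - τ₁) * Real.exp (-(τ₂ - τ₁))) := by ring
        _ ≤ S.C * (K₁ + K₂) * 1 := mul_le_mul_of_nonneg_left hest h2
        _ = _ := mul_one _
    have h1 := Lam_cmp (LAR Γ δ) hR n n' A C' hRA hRB _ _ _ (by positivity) hc
    rw [hlen, ← hM] at h1
    have h2 : 0 ≤ M * (S.C * (L₁ + L₂)) :=
      mul_nonneg hM0 (mul_nonneg hC (by linarith))
    linarith

end Pool.Agent.Helper14.BN
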