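import Pool.Agent.Helper14.BN.Mixed

/-!
# Project BR, block NECK, piece BCN-AB

See the header of `Mixed`.
-/

set_option autoImplicit false

namespace Pool.Agent.Helper14.BN

open Pool.Agent.Helper11.BC (dl)
open Pool.Agent.Helper11.BR
open Pool.Agent.Helper14.BC
open Pool.Agent.Helper14.BR (d_nonneg d_comm d_triangle d_self)

variable {G : Type} [Group G] [TopologicalSpace G] {Γ : R1 G}

/-! ### the five cases -/

private theorem ab_nil_left {N : ℕ} {φ : Fn G} {c : ℝ} (hφ : ∀ Y : List (GP G), Y.length = N + 1 → |dl φ Y| ≤ c)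
    (n : G) (B : List G) (hB : B.length = N) :
    |S2 Γ n φ [] B - d2 (Xi2 Γ n φ) [] B| ≤ (N.factorial : ℝ) * c := by
  have e1 : S2 Γ n φ [] B = sdp Γ n φ B := by
    rw [S2_small (Or.inl (by simp)), J2_nil]
  have e2 : d2 (Xi2 Γ n φ) [] B = sdp Γ n (dl (cone (GP.bdp n) φ)) B := by
    have h1 : dl (fun B' => Xi2 Γ n φ [] B') B = dl (sdp Γ n (cone (GP.bdp n) φ)) B :=
      dl_congr fun i _ => by simp [Xi2]
    unfold d2
    rw [dl_nil, zero_add, List.length_nil, pow_zero, one_smul, h1]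
    exact (sd_dl (rt Γ n) (cone (GP.bdp n) φ) B).symm
  have e3 : sdp Γ n φ B - sdp Γ n (dl (cone (GP.bdp n) φ)) B =
      sdp Γ n (fun l => dl φ (GP.bdp n :: l)) B := by
    unfold sdp
    rw [← sd_sub]
    congr 1
    funext l
    rw [dl_cons]
    rfl
  rw [e1, e2, e3, ← hB]
  unfold sdp
  exact sd_abs fun l hl => hφ _ (by rw [List.length_cons, hl, hB])

private theorem ab_nil_right {N : ℕ} (hN : 2 ≤ N) {φ : Fn G} {c : ℝ}
    (hφ : ∀ Y : List (GP G), Y.length = N + 1 → |dl φ Y| ≤ c) (n : G) (A : List G)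
    (hA : A.length = N) :
    |S2 Γ n φ A [] - d2 (Xi2 Γ n φ) A []| ≤ (N.factorial : ℝ) * c := by
  obtain ⟨M, rfl⟩ : ∃ M, N = M + 1 := ⟨N - 1, by omega⟩
  have e1 : S2 Γ n φ A [] = sdm Γ n φ A := by
    rw [S2_small (Or.inr (by simp)), J2_nil_right]
  have e2 : d2 (Xi2 Γ n φ) A [] =
      (-1 : ℝ) ^ M * sdm Γ n (dl (fun l => φ (l ++ [GP.bdp (opp Γ n)]))) A := by
    have h1 : dl (fun A' => Xi2 Γ n φ A' []) A =
        dl (fun A' => (-1 : ℝ) ^ M • sdm Γ n (fun l => φ (l ++ [GP.bdp (opp Γ n)])) A') A := by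
      refine dl_congr fun i hi => ?_
      have hl := length_face hi
      have hl' : (A.eraseIdx i).length = M := by omega
      have hne : A.eraseIdx i ≠ [] := by
        intro h
        rw [h] at hl'
        simp at hl'
        omega
      simp only [Xi2, if_neg hne, if_true, hl', smul_eq_mul]
    unfold d2
    rw [dl_nil, smul_zero, add_zero, h1, dl_smul, smul_eq_mul]
    congr 1
    exact (sd_dl (rt Γ (opp Γ n)) (fun l => φ (l ++ [GP.bdp (opp Γ n)])) A).symm
  have e3 : sdm Γ n φ A - (-1 : ℝ) ^ M * sdm Γ n (dl (fun l => φ (l ++ [GP.bdp (opp Γ n)]))) A =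
      (-1 : ℝ) ^ (M + 1) * sdm Γ n (fun l => dl φ (l ++ [GP.bdp (opp Γ n)])) A := by
    unfold sdm
    rw [← sd_smul, ← sd_smul, ← sd_sub]
    refine sd_congr fun l hl => ?_
    have h2 : (-1 : ℝ) ^ (M + 1) * (-1 : ℝ) ^ (M + 1) = 1 := by
      rw [← mul_pow]
      norm_num
    rw [dl_append_singleton, hl, hA, smul_eq_mul, mul_add, ← mul_assoc ((-1 : ℝ) ^ (M + 1)), h2,
      pow_succ]
    ring
  rw [e1, e2, e3, abs_mul, abs_pow, abs_neg, abs_one, one_pow, one_mul, ← hA]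
  unfold sdm
  exact sd_abs fun l hl => hφ _ (by rw [List.length_append, hl, hA]; simp)

private theorem xi2_ne {n : G} {φ : Fn G} {A B : List G} (hA : A ≠ []) (hB : B ≠ []) :
    Xi2 Γ n φ A B = 0 := by
  simp [Xi2, hA, hB]

private theorem face_ne {A : List G} (hA : 2 ≤ A.length) {i : ℕ} (hi : i < A.length) :
    A.eraseIdx i ≠ [] := by
  have hl := length_face hi
  intro h
  rw [h] at hl
  simp at hl
  omega

private theorem xi2_single_left (n : G) (φ : Fn G) (a : G) {B : List G} (hB : 2 ≤ B.length) :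
    d2 (Xi2 Γ n φ) [a] B = sdp Γ n (cone (GP.bdp n) φ) B := by
  have h1 : dl (fun B' => Xi2 Γ n φ [a] B') B = dl (fun _ => (0 : ℝ)) B :=
    dl_congr fun i hi => xi2_ne (by simp) (face_ne hB hi)
  unfold d2
  rw [h1, dl_zero, smul_zero, add_zero, dl_cons, dl_nil, sub_zero]
  simp [Xi2]

private theorem xi2_single_right (n : G) (φ : Fn G) {A : List G} (b : G) (hA : 2 ≤ A.length) :
    d2 (Xi2 Γ n φ) A [b] = sdm Γ n (fun l => φ (l ++ [GP.bdp (opp Γ n)])) A := by
  have hA0 : A ≠ [] := by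
    rintro rfl
    simp at hA
  have h1 : dl (fun A' => Xi2 Γ n φ A' [b]) A = dl (fun _ => (0 : ℝ)) A :=
    dl_congr fun i hi => xi2_ne (face_ne hA hi) (by simp)
  have h2 : (-1 : ℝ) ^ A.length * (-1 : ℝ) ^ A.length = 1 := by
    rw [← mul_pow]
    norm_num
  unfold d2
  rw [h1, dl_zero, zero_add, dl_cons, dl_nil, sub_zero]
  simp only [Xi2, if_neg hA0, if_true, smul_eq_mul]
  rw [← mul_assoc, h2, one_mul]

private theorem xi2_big (n : G) (φ : Fn G) {A B : List G} (hA : 2 ≤ A.length) (hB : 2 ≤ B.length) :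
    d2 (Xi2 Γ n φ) A B = 0 := by
  have hA0 : A ≠ [] := by
    rintro rfl
    simp at hA
  have hB0 : B ≠ [] := by
    rintro rfl
    simp at hB
  have h1 : dl (fun A' => Xi2 Γ n φ A' B) A = dl (fun _ => (0 : ℝ)) A :=
    dl_congr fun i hi => xi2_ne (face_ne hA hi) hB0
  have h2 : dl (fun B' => Xi2 Γ n φ A B') B = dl (fun _ => (0 : ℝ)) B :=
    dl_congr fun i hi => xi2_ne hA0 (face_ne hB hi)
  unfold d2
  rw [h1, h2, dl_zero, dl_zero, smul_zero, add_zero]

private theorem fact_le' {k m : ℕ} (h : k ≤ m) {K K' : ℝ} (hK : 0 ≤ K) (hKK : K ≤ K') :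
    (k.factorial : ℝ) * K ≤ (m.factorial : ℝ) * K' := by
  have h1 : (k.factorial : ℝ) ≤ (m.factorial : ℝ) := by exact_mod_cast Nat.factorial_le h
  have h2 : (0 : ℝ) ≤ (m.factorial : ℝ) := by positivity
  exact mul_le_mul h1 hKK hK h2

theorem neckAB (hG : NeckGeo Γ) {N : ℕ} (hN : 3 ≤ N) (S : Sys Γ N) : ∃ K : ℝ, 1 ≤ K ∧
    ∀ (n : G) (τ₁ τ₂ : ℝ) (A B : List G), τ₁ ≤ τ₂ → A.length + B.length = N →
      Γ.Generic A → Γ.Generic B → (∀ a ∈ A, Γ.Ahead n τ₂ a) → (∀ b ∈ B, Γ.Behind n τ₁ b) →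
      |S2 Γ n (fun X => S.F X (Γ.ln n τ₁) (Γ.ln n τ₂)) A B -
        d2 (Xi2 Γ n (fun X => S.F X (Γ.ln n τ₁) (Γ.ln n τ₂))) A B| ≤ K := by
  obtain ⟨K₁, hK₁, h1⟩ := LA1 hG S
  obtain ⟨K₂, hK₂, h2⟩ := LA2 hG S
  obtain ⟨K₃, hK₃, h3⟩ := mixed hG S
  have hC := S.one_le_C
  have hf : (1 : ℝ) ≤ (N.factorial : ℝ) := by exact_mod_cast Nat.factorial_pos N
  refine ⟨(N.factorial : ℝ) * (K₁ + K₂ + K₃ + 2 * S.C), ?_, ?_⟩
  · nlinarith
  intro n τ₁ τ₂ A B hτ hAB hgA hgB hA hB
  set φ : Fn G := fun X => S.F X (Γ.ln n τ₁) (Γ.ln n τ₂) with hφdef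
  have hφ : ∀ Y : List (GP G), Y.length = N + 1 → |dl φ Y| ≤ 2 * S.C := by
    intro Y hY
    rw [hφdef, S.F_bd Y _ _ hY]
    refine (abs_sub _ _).trans ?_
    have h4 := S.f0_bdd (Γ.ln n τ₁) Y hY
    have h5 := S.f0_bdd (Γ.ln n τ₂) Y hY
    linarith
  rcases Nat.lt_or_ge 0 A.length with hA0 | hA0
  swap
  · obtain rfl : A = [] := List.length_eq_zero_iff.1 (by omega)
    refine (ab_nil_left hφ n B (by simpa using hAB)).trans ?_
    exact fact_le' le_rfl (by linarith) (by linarith)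
  rcases Nat.lt_or_ge 0 B.length with hB0 | hB0
  swap
  · obtain rfl : B = [] := List.length_eq_zero_iff.1 (by omega)
    refine (ab_nil_right (by omega) hφ n A (by simpa using hAB)).trans ?_
    exact fact_le' le_rfl (by linarith) (by linarith)
  rcases Nat.lt_or_ge 1 A.length with hA1 | hA1
  swap
  · obtain ⟨a, rfl⟩ : ∃ a, A = [a] := List.length_eq_one_iff.1 (by omega)
    simp only [List.length_cons, List.length_nil] at hAB
    rw [S2_small (Or.inl (by simp)), J2_single, xi2_single_left n φ a (by omega)]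
    have h4 : |sdp Γ n (cone (GP.bdp a) φ) B - sdp Γ n (cone (GP.bdp n) φ) B| ≤
        (B.length.factorial : ℝ) * K₁ := by
      refine sdp_flag n _ _ B (by rintro rfl; simp at hB0) K₁ fun Ds b hb hDs hDl => ?_
      exact h1 n τ₁ τ₂ [] Ds a n b hτ (by simp only [List.length_nil]; omega) (hA a (by simp))
        (hG.ahead_self n τ₂) (hB b hb) (by simp)
        (fun E hE => by
          obtain ⟨h5, h6, h7⟩ := hDs E hE
          exact ⟨fun g hg => hB g (h5.subset hg), List.Pairwise.sublist h5 hgB, h7, h6⟩)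
    exact h4.trans (fact_le' (by omega) (by linarith) (by linarith))
  rcases Nat.lt_or_ge 1 B.length with hB1 | hB1
  swap
  · obtain ⟨b, rfl⟩ : ∃ b, B = [b] := List.length_eq_one_iff.1 (by omega)
    simp only [List.length_cons, List.length_nil] at hAB
    rw [S2_small (Or.inr (by simp)), J2_single_right, xi2_single_right n φ b (by omega)]
    have h4 : |sdp Γ (opp Γ n) (fun l => φ (l ++ [GP.bdp b])) A -
        sdp Γ (opp Γ n) (fun l => φ (l ++ [GP.bdp (opp Γ n)])) A| ≤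
        (A.length.factorial : ℝ) * K₂ := by
      refine sdp_flag (opp Γ n) _ _ A (by rintro rfl; simp at hA0) K₂ fun Ds a ha hDs hDl => ?_
      have h8 := h2 n τ₁ τ₂ [] Ds a b (opp Γ n) hτ (by simp only [List.length_nil]; omega) (hA a ha)
        (hB b (by simp)) (hG.behind_opp n τ₁) (by simp)
        (fun E hE => by
          obtain ⟨h5, h6, h7⟩ := hDs E hE
          exact ⟨fun g hg => hA g (h5.subset hg), List.Pairwise.sublist h5 hgA, h7, h6⟩)
      simp only [hφdef, List.append_assoc, List.cons_append, List.nil_append]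
      exact h8
    exact h4.trans (fact_le' (by omega) (by linarith) (by linarith))
  · rw [xi2_big n φ (by omega) (by omega), sub_zero]
    have h4 := h3 n τ₁ τ₂ [] A B hτ (by simp only [List.length_nil]; omega)
      ⟨by omega, by omega, hgA, hgB, hA, hB⟩ (by simp)
    simp only [List.map_nil, List.nil_append] at h4
    refine h4.trans ?_
    have h5 : K₃ ≤ K₁ + K₂ + K₃ + 2 * S.C := by linarith
    have h6 : 0 ≤ K₁ + K₂ + K₃ + 2 * S.C := by linarith
    nlinarith

end Pool.Agent.Helper14.BN
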