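import Pool.Agent.Helper14.BC.Alg
import Pool.Agent.Helper14.BR.Pt

/-!
# Project BR, block NECK: the chains, as functionals of functions on lists of points

A chain `X` is represented by `φ ↦ ∑ coefficients * φ`.  `cone v φ` is `φ` on `v :: l`.
`sd ρ φ D` is the value of `φ` on `S(D) = ρ(D) * S(∂D)`, `S([]) = []`.
`J2 Γ n φ A B` is `sdm A * sdp B`; `S2 Γ n φ A B` is `J2` if `|A| ≤ 1` or `|B| ≤ 1`, and
`Γ.mid A B * S2 Γ (∂ (A | B))` otherwise; `Sc Γ n A φ C` is `S2` with the shuffle operator;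
`Lam` is the cone homotopy with first element as apex between `C.map int` and `Sc C`;
`Xi2 Γ n φ A B` is `bdp n * sdp B` (`A = []`), `(-1)^|A| sdm A * bdp (n * flip)` (`B = []`), `0` otherwise.
-/

set_option autoImplicit false

namespace Pool.Agent.Helper14.BN

open Pool.Agent.Helper11.BC (dl)
open Pool.Agent.Helper11.BR
open Pool.Agent.Helper14.BC
open Pool.Agent.Helper14.BR (d_nonneg d_comm d_triangle d_self)

variable {G : Type} [Group G] [TopologicalSpace G] {Γ : R1 G}

/-- functions on lists of points -/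
abbrev Fn (G : Type) : Type := List (GP G) → ℝ

/-- `φ` on `v :: l` -/
def cone (v : GP G) (φ : Fn G) : Fn G := fun l => φ (v :: l)

/-- cone recursion with `k` steps -/
noncomputable def sdk (ρ : List G → GP G) : ℕ → Fn G → List G → ℝ
  | 0, φ, _ => φ []
  | k + 1, φ, D => dl (sdk ρ k (cone (ρ D) φ)) D

/-- `φ` on `S(D) = ρ(D) * S(∂D)` -/
noncomputable def sd (ρ : List G → GP G) (φ : Fn G) (D : List G) : ℝ := sdk ρ D.length φ D

@[simp] theorem sd_nil (ρ : List G → GP G) (φ : Fn G) : sd ρ φ [] = φ [] := rfl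

theorem sd_ne {ρ : List G → GP G} {φ : Fn G} {D : List G} (h : D ≠ []) :
    sd ρ φ D = dl (sd ρ (cone (ρ D) φ)) D := by
  obtain ⟨k, hk⟩ : ∃ k, D.length = k + 1 :=
    ⟨D.length - 1, by have := List.length_pos_iff.2 h; omega⟩
  unfold sd
  rw [hk]
  show dl (sdk ρ k (cone (ρ D) φ)) D = _
  refine dl_congr fun i hi => ?_
  have := length_face hi
  have h2 : (D.eraseIdx i).length = k := by omega
  rw [h2]

theorem sd_single (ρ : List G → GP G) (φ : Fn G) (g : G) : sd ρ φ [g] = φ [ρ [g]] := by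
  rw [sd_ne (by simp), dl_cons]
  simp [cone]

/-- Comparison of two cone recursions. -/
theorem sd_cmp (R : GP G → GP G → Prop) (ρ ρ' : List G → GP G) (D : List G)
    (hρ : ∀ E : List G, E.Sublist D → E ≠ [] → R (ρ E) (ρ' E)) (φ φ' : Fn G) (c : ℝ)
    (h : ∀ l l' : List (GP G), l.length = D.length → List.Forall₂ R l l' → |φ l - φ' l'| ≤ c) :
    |sd ρ φ D - sd ρ' φ' D| ≤ (D.length.factorial : ℝ) * c := by
  obtain ⟨n, hn⟩ : ∃ n, D.length = n := ⟨_, rfl⟩
  induction n generalizing D φ φ' with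
  | zero =>
    rw [List.length_eq_zero_iff] at hn
    subst hn
    simpa using h [] [] rfl List.Forall₂.nil
  | succ n ih =>
    have hD : D ≠ [] := by
      rintro rfl
      simp at hn
    rw [sd_ne hD, sd_ne hD, ← dl_sub, hn, Nat.factorial_succ]
    have h1 : ∀ i < D.length, |(fun x => sd ρ (cone (ρ D) φ) x - sd ρ' (cone (ρ' D) φ') x) (D.eraseIdx i)| ≤
        (n.factorial : ℝ) * c := by
      intro i hi
      have hl : (D.eraseIdx i).length = n := by
        have := length_face hi
        omega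
      have h2 := ih (D.eraseIdx i) (fun E hE hE0 => hρ E (hE.trans (List.eraseIdx_sublist _ _)) hE0)
        (cone (ρ D) φ) (cone (ρ' D) φ') (fun l l' hll hr => by
          refine h _ _ ?_ (List.Forall₂.cons (hρ D (List.Sublist.refl _) hD) hr)
          rw [List.length_cons, hll, hl, hn]) hl
      rw [hl] at h2
      exact h2
    have h3 := abs_dl_le (Φ := fun x => sd ρ (cone (ρ D) φ) x - sd ρ' (cone (ρ' D) φ') x) h1
    rw [hn] at h3
    refine h3.trans (le_of_eq ?_)
    push_cast
    ring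

theorem sd_zero (ρ : List G → GP G) (D : List G) : sd ρ (fun _ => 0) D = 0 := by
  obtain ⟨n, hn⟩ : ∃ n, D.length = n := ⟨_, rfl⟩
  induction n generalizing D with
  | zero =>
    rw [List.length_eq_zero_iff] at hn
    subst hn
    rfl
  | succ n ih =>
    have hD : D ≠ [] := by
      rintro rfl
      simp at hn
    rw [sd_ne hD]
    have h : dl (sd ρ (cone (ρ D) fun _ => 0)) D = dl (fun _ => (0 : ℝ)) D :=
      dl_congr fun i hi => ih _ (by have := length_face hi; omega)
    rw [h, dl_zero]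

theorem sd_sub (ρ : List G → GP G) (φ ψ : Fn G) (D : List G) :
    sd ρ (fun l => φ l - ψ l) D = sd ρ φ D - sd ρ ψ D := by
  obtain ⟨n, hn⟩ : ∃ n, D.length = n := ⟨_, rfl⟩
  induction n generalizing D φ ψ with
  | zero =>
    rw [List.length_eq_zero_iff] at hn
    subst hn
    rfl
  | succ n ih =>
    have hD : D ≠ [] := by
      rintro rfl
      simp at hn
    rw [sd_ne hD, sd_ne hD, sd_ne hD, ← dl_sub]
    exact dl_congr fun i hi => ih (cone (ρ D) φ) (cone (ρ D) ψ) _ (by have := length_face hi; omega)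

theorem sd_abs {ρ : List G → GP G} {D : List G} {φ : Fn G} {c : ℝ}
    (h : ∀ l : List (GP G), l.length = D.length → |φ l| ≤ c) :
    |sd ρ φ D| ≤ (D.length.factorial : ℝ) * c := by
  have h1 := sd_cmp Eq ρ ρ D (fun _ _ _ => rfl) φ (fun _ => 0) c (fun l l' hl _ => by
    rw [sub_zero]
    exact h l hl)
  rwa [sd_zero, sub_zero] at h1

/-- Every cone recursion is a chain map. -/
theorem sd_dl (ρ : List G → GP G) (φ : Fn G) (D : List G) : sd ρ (dl φ) D = dl (sd ρ φ) D := by
  obtain ⟨n, hn⟩ : ∃ n, D.length = n := ⟨_, rfl⟩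
  induction n generalizing D φ with
  | zero =>
    rw [List.length_eq_zero_iff] at hn
    subst hn
    simp
  | succ n ih =>
    have hD : D ≠ [] := by
      rintro rfl
      simp at hn
    rw [sd_ne hD]
    have h1 : cone (ρ D) (dl φ) = fun l => φ l - dl (cone (ρ D) φ) l := by
      funext l
      exact dl_cons _ _ _
    rw [h1]
    have h2 : dl (sd ρ fun l => φ l - dl (cone (ρ D) φ) l) D =
        dl (fun E => sd ρ φ E - dl (sd ρ (cone (ρ D) φ)) E) D :=
      dl_congr fun i hi => by
        rw [sd_sub, ih (cone (ρ D) φ) _ (by have := length_face hi; omega)]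
    rw [h2, dl_sub, dl_dl, sub_zero]

/-! ### The roots -/

/-- roots seen from `n • ∞` -/
noncomputable def rt (Γ : R1 G) (n : G) (D : List G) : GP G :=
  if D.length ≤ 1 then GP.bdp (D.headD 1) else GP.int (Γ.root n D)

/-- `sd_+` -/
noncomputable def sdp (Γ : R1 G) (n : G) (φ : Fn G) (D : List G) : ℝ := sd (rt Γ n) φ D

/-- the reversed frame -/
abbrev opp (Γ : R1 G) (n : G) : G := n * Γ.flip

/-- `sd_-` -/
noncomputable def sdm (Γ : R1 G) (n : G) (φ : Fn G) (D : List G) : ℝ := sd (rt Γ (opp Γ n)) φ D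

/-- `sdm A * sdp B` -/
noncomputable def J2 (Γ : R1 G) (n : G) (φ : Fn G) (A B : List G) : ℝ :=
  sdm Γ n (fun l => sdp Γ n (fun l' => φ (l ++ l')) B) A

/-- auxiliary: `S2` with `k` steps -/
noncomputable def S2k (Γ : R1 G) (n : G) : ℕ → Fn G → List G → List G → ℝ
  | 0, φ, A, B => J2 Γ n φ A B
  | k + 1, φ, A, B =>
    if A.length ≤ 1 ∨ B.length ≤ 1 then J2 Γ n φ A B
    else d2 (S2k Γ n k (cone (GP.int (Γ.mid A B)) φ)) A B

/-- the chain map on pairs -/
noncomputable def S2 (Γ : R1 G) (n : G) (φ : Fn G) (A B : List G) : ℝ := S2k Γ n (A.length + B.length) φ A B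

open Classical in
/-- the chain map on lists; `A` is the set of the elements ahead -/
noncomputable def Sc (Γ : R1 G) (n : G) (A : Finset G) (φ : Fn G) (C : List G) : ℝ :=
  Sh (fun g => g ∈ A) C (S2 Γ n φ)

/-- auxiliary: the homotopy with `k` steps -/
noncomputable def Lamk (Γ : R1 G) (n : G) (A : Finset G) : ℕ → Fn G → List G → ℝ
  | 0, _, _ => 0
  | k + 1, φ, D =>
    cone (GP.int (D.headD 1)) φ (D.map GP.int) - Sc Γ n A (cone (GP.int (D.headD 1)) φ) D -
      dl (Lamk Γ n A k (cone (GP.int (D.headD 1)) φ)) D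

/-- the cone homotopy between `C.map int` and `Sc C` -/
noncomputable def Lam (Γ : R1 G) (n : G) (A : Finset G) (φ : Fn G) (D : List G) : ℝ := Lamk Γ n A D.length φ D

/-- the values on the ends of the line -/
noncomputable def Xi2 (Γ : R1 G) (n : G) (φ : Fn G) (A B : List G) : ℝ :=
  if A = [] then sdp Γ n (cone (GP.bdp n) φ) B
  else if B = [] then (-1 : ℝ) ^ A.length * sdm Γ n (fun l => φ (l ++ [GP.bdp (opp Γ n)])) A
  else 0

open Classical in
/-- `Xi2` on lists -/
noncomputable def Xi (Γ : R1 G) (n : G) (A : Finset G) (φ : Fn G) (C : List G) : ℝ :=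
  Sh (fun g => g ∈ A) C (Xi2 Γ n φ)

/-- `g(C'; s → t)` for the type `A` and the frame `n`. -/
noncomputable def gtd {N : ℕ} (S : Sys Γ N) (n : G) (A : Finset G) (C' : List G)
    (s t : G) : ℝ :=
  Lam Γ n A (fun X => S.F X s t) C' + Xi Γ n A (fun X => S.F X s t) C'

end Pool.Agent.Helper14.BN
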